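import Mathlib

/-!
Finite part of the construction: blocks of nine digits in base `576`.
-/

set_option autoImplicit false
set_option linter.unusedSectionVars false

namespace Pool.Agent.U853.FourSumDigits

/-- the small set -/
def Bp : Finset ℕ := {0, 1, 3, 22, 35}

lemma hL : ∀ y < 64, ∃ b ∈ Bp, ∀ b1 ∈ Bp, ∀ b2 ∈ Bp, ∀ b3 ∈ Bp,
    (y + b + b1 + b2 + b3) % 64 ≠ 11 := by decide +kernel

lemma hL4 : ∀ b1 ∈ Bp, ∀ b2 ∈ Bp, ∀ b3 ∈ Bp, ∀ b4 ∈ Bp, (b1 + b2 + b3 + b4) % 64 ≠ 11 := by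
  decide +kernel

lemma hle : ∀ b ∈ Bp, b ≤ 35 := by decide

lemma h0 : (0 : ℕ) ∈ Bp := by decide

/-- the choice -/
noncomputable def bs (y : ℕ) : ℕ := if h : y < 64 then (hL y h).choose else 0

lemma bs_mem (y : ℕ) : bs y ∈ Bp := by
  unfold bs
  split_ifs with h
  · exact (hL y h).choose_spec.1
  · exact h0

lemma bs_spec (y : ℕ) (h : y < 64) : ∀ b1 ∈ Bp, ∀ b2 ∈ Bp, ∀ b3 ∈ Bp,
    (y + bs y + b1 + b2 + b3) % 64 ≠ 11 := by
  unfold bs
  rw [dif_pos h]
  exact (hL y h).choose_spec.2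

lemma bs_le (y : ℕ) : bs y ≤ 35 := hle _ (bs_mem y)

lemma core1 (y : ℕ) (hy : y < 576) (b1 b2 b3 : ℕ) (h1 : b1 ∈ Bp) (h2 : b2 ∈ Bp) (h3 : b3 ∈ Bp)
    (κ : ℕ) (hκ : κ ≤ 8) :
    (y + 9 * bs (y / 9) + 9 * b1 + 9 * b2 + 9 * b3 + κ) % 576 ≠ 107 := by
  intro h
  have := bs_spec (y / 9) (by omega) b1 h1 b2 h2 b3 h3
  omega

lemma core2 (b1 b2 b3 b4 : ℕ) (h1 : b1 ∈ Bp) (h2 : b2 ∈ Bp) (h3 : b3 ∈ Bp) (h4 : b4 ∈ Bp)
    (κ : ℕ) (hκ : κ ≤ 8) :
    (9 * b1 + 9 * b2 + 9 * b3 + 9 * b4 + κ) % 576 ≠ 107 := by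
  intro h
  have := hL4 b1 h1 b2 h2 b3 h3 b4 h4
  omega

noncomputable def P (y : ℕ) : ℕ := 9 * bs (y / 9)
noncomputable def Q (y : ℕ) : ℕ := (1152 - y - 9 * bs (y / 9)) % 576
def R (y : ℕ) : ℕ := (576 - y) % 576

lemma P_lt (y : ℕ) : P y < 576 := by
  have := bs_le (y / 9)
  unfold P; omega

lemma Q_lt (y : ℕ) : Q y < 576 := by
  unfold Q; omega

lemma R_lt (y : ℕ) : R y < 576 := by
  unfold R; omega

lemma Q_rel (y : ℕ) (hy : y < 576) : (y + Q y + 9 * bs (y / 9)) % 576 = 0 := by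
  have := bs_le (y / 9)
  unfold Q; omega

lemma R_rel (y : ℕ) (hy : y < 576) : (y + R y) % 576 = 0 := by
  unfold R; omega

/-- the block function -/
noncomputable def F (x : ℕ → ℕ) (s : ℕ) : ℕ :=
  if s = 0 then (if x 0 / 192 = 0 then 0 else if x 0 / 192 = 1 then 192 else 96)
  else if s ≤ 3 then (if x 0 / 192 + 1 = s then R (x s) else P (x s))
  else if s ≤ 6 then (if x 0 / 192 + 4 = s then 0 else Q (x s))
  else if s = 7 then P (x s) else Q (x s)

/-- target digits -/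
def cv (s : ℕ) : ℕ :=
  if s = 0 then 575 else if s ≤ 3 then 107 else if s ≤ 6 then 477 else if s = 7 then 107 else 477

lemma F_lt (x : ℕ → ℕ) (s : ℕ) : F x s < 576 := by
  have h1 := P_lt (x s)
  have h2 := Q_lt (x s)
  have h3 := R_lt (x s)
  unfold F
  split_ifs <;> omega

lemma cv_lt (s : ℕ) : cv s < 576 := by
  unfold cv; split_ifs <;> omega

lemma F_zero (x : ℕ → ℕ) : F x 0 = if x 0 / 192 = 0 then 0 else if x 0 / 192 = 1 then 192 else 96 := by
  simp [F]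

lemma F_g (x : ℕ → ℕ) (s : ℕ) (h1 : 1 ≤ s) (h2 : s ≤ 3) :
    F x s = if x 0 / 192 + 1 = s then R (x s) else P (x s) := by
  unfold F; rw [if_neg (by omega), if_pos h2]

lemma F_h (x : ℕ → ℕ) (s : ℕ) (h1 : 4 ≤ s) (h2 : s ≤ 6) :
    F x s = if x 0 / 192 + 4 = s then 0 else Q (x s) := by
  unfold F; rw [if_neg (by omega), if_neg (by omega), if_pos h2]

lemma F_7 (x : ℕ → ℕ) : F x 7 = P (x 7) := by simp [F]
lemma F_8 (x : ℕ → ℕ) : F x 8 = Q (x 8) := by simp [F]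

lemma cv_g (s : ℕ) (h1 : 1 ≤ s) (h2 : s ≤ 3) : cv s = 107 := by
  unfold cv; rw [if_neg (by omega), if_pos h2]

lemma cv_h (s : ℕ) (h1 : 4 ≤ s) (h2 : s ≤ 6) : cv s = 477 := by
  unfold cv; rw [if_neg (by omega), if_neg (by omega), if_pos h2]

/-- `e` misses the target at some position, for every carry. -/
def Good (e : ℕ → ℕ) : Prop := ∃ s < 9, ∀ κ ≤ 8, (e s + κ) % 576 ≠ cv s

section kills

variable {x1 x2 y1 y2 : ℕ → ℕ} (hx1 : ∀ s, x1 s < 576) (hx2 : ∀ s, x2 s < 576)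
  (hy1 : ∀ s, y1 s < 576) (hy2 : ∀ s, y2 s < 576)
include hx1 hx2 hy1 hy2

lemma K40 : Good (fun s => F x1 s + F x2 s + F y1 s + F y2 s) := by
  refine ⟨7, by norm_num, fun κ hκ => ?_⟩
  simp only [F_7, P]
  exact core2 _ _ _ _ (bs_mem _) (bs_mem _) (bs_mem _) (bs_mem _) κ hκ

lemma K31 : Good (fun s => F x1 s + F x2 s + F y1 s + (F y2 s + y2 s)) := by
  refine ⟨7, by norm_num, fun κ hκ h => ?_⟩
  simp only [F_7, P] at h
  have := core1 (y2 7) (hy2 7) _ _ _ (bs_mem (x1 7 / 9)) (bs_mem (x2 7 / 9)) (bs_mem (y1 7 / 9)) κ hκ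
  have e : cv 7 = 107 := by simp [cv]
  rw [e] at h
  omega

lemma K04 : Good (fun s => (F x1 s + x1 s) + (F x2 s + x2 s) + (F y1 s + y1 s) + (F y2 s + y2 s)) := by
  refine ⟨8, by norm_num, fun κ hκ h => ?_⟩
  simp only [F_8] at h
  have := core2 _ _ _ _ (bs_mem (x1 8 / 9)) (bs_mem (x2 8 / 9)) (bs_mem (y1 8 / 9))
    (bs_mem (y2 8 / 9)) (8 - κ) (by omega)
  have e : cv 8 = 477 := by simp [cv]
  rw [e] at h
  have q1 := Q_rel _ (hx1 8)
  have q2 := Q_rel _ (hx2 8)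
  have q3 := Q_rel _ (hy1 8)
  have q4 := Q_rel _ (hy2 8)
  omega

lemma K13 : Good (fun s => F x1 s + (F x2 s + x2 s) + (F y1 s + y1 s) + (F y2 s + y2 s)) := by
  refine ⟨8, by norm_num, fun κ hκ h => ?_⟩
  simp only [F_8] at h
  have := core1 _ (hx1 8) _ _ _ (bs_mem (x2 8 / 9)) (bs_mem (y1 8 / 9))
    (bs_mem (y2 8 / 9)) (8 - κ) (by omega)
  have e : cv 8 = 477 := by simp [cv]
  rw [e] at h
  have q1 := Q_rel _ (hx1 8)
  have q2 := Q_rel _ (hx2 8)
  have q3 := Q_rel _ (hy1 8)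
  have q4 := Q_rel _ (hy2 8)
  omega

/-- the type of `y2` is not a type of `x1, x2` -/
lemma K22g (h1 : y2 0 / 192 ≠ x1 0 / 192) (h2 : y2 0 / 192 ≠ x2 0 / 192) :
    Good (fun s => F x1 s + F x2 s + (F y1 s + y1 s) + (F y2 s + y2 s)) := by
  obtain ⟨s, hs⟩ : ∃ s, s = y2 0 / 192 + 1 := ⟨_, rfl⟩
  have hs1 : 1 ≤ s := by omega
  have hs3 : s ≤ 3 := by have := hy2 0; omega
  refine ⟨s, by omega, fun κ hκ h => ?_⟩
  simp only [F_g _ s hs1 hs3] at h
  rw [cv_g s hs1 hs3, if_neg (show ¬ x1 0 / 192 + 1 = s by omega),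
    if_neg (show ¬ x2 0 / 192 + 1 = s by omega), if_pos hs.symm] at h
  have r2 := R_rel _ (hy2 s)
  split_ifs at h with h3
  · have r1 := R_rel _ (hy1 s)
    have := core2 _ _ _ _ (bs_mem (x1 s / 9)) (bs_mem (x2 s / 9)) h0 h0 κ hκ
    unfold P at h
    omega
  · have := core1 _ (hy1 s) _ _ _ (bs_mem (x1 s / 9)) (bs_mem (x2 s / 9)) h0 κ hκ
    unfold P at h
    omega

/-- the type of `x1` is not a type of `x2, y1, y2` -/
lemma K22h (h1 : x1 0 / 192 ≠ x2 0 / 192) (h2 : x1 0 / 192 ≠ y1 0 / 192)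
    (h3 : x1 0 / 192 ≠ y2 0 / 192) :
    Good (fun s => F x1 s + F x2 s + (F y1 s + y1 s) + (F y2 s + y2 s)) := by
  obtain ⟨s, hs⟩ : ∃ s, s = x1 0 / 192 + 4 := ⟨_, rfl⟩
  have hs1 : 4 ≤ s := by omega
  have hs3 : s ≤ 6 := by have := hx1 0; omega
  refine ⟨s, by omega, fun κ hκ h => ?_⟩
  simp only [F_h _ s hs1 hs3] at h
  rw [cv_h s hs1 hs3, if_pos hs.symm, if_neg (show ¬ x2 0 / 192 + 4 = s by omega),
    if_neg (show ¬ y1 0 / 192 + 4 = s by omega), if_neg (show ¬ y2 0 / 192 + 4 = s by omega)] at h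
  have q2 := Q_rel _ (hx2 s)
  have q3 := Q_rel _ (hy1 s)
  have q4 := Q_rel _ (hy2 s)
  have := core1 _ (hx2 s) _ _ _ (bs_mem (y1 s / 9)) (bs_mem (y2 s / 9)) h0 (8 - κ) (by omega)
  omega

/-- equal multisets of types -/
lemma K22z (h1 : y1 0 / 192 = x1 0 / 192) (h2 : y2 0 / 192 = x2 0 / 192) :
    Good (fun s => F x1 s + F x2 s + (F y1 s + y1 s) + (F y2 s + y2 s)) := by
  refine ⟨0, by norm_num, fun κ hκ h => ?_⟩
  simp only [F_zero] at h
  have e : cv 0 = 575 := by simp [cv]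
  rw [e, h1, h2] at h
  have a1 := hx1 0
  have a2 := hx2 0
  have a3 := hy1 0
  have a4 := hy2 0
  split_ifs at h <;> omega

end kills

lemma Good_congr {e f : ℕ → ℕ} (h : ∀ s, e s = f s) (he : Good e) : Good f := by
  have : e = f := funext h
  rwa [← this]

lemma K22 {x1 x2 y1 y2 : ℕ → ℕ} (hx1 : ∀ s, x1 s < 576) (hx2 : ∀ s, x2 s < 576)
    (hy1 : ∀ s, y1 s < 576) (hy2 : ∀ s, y2 s < 576) :
    Good (fun s => F x1 s + F x2 s + (F y1 s + y1 s) + (F y2 s + y2 s)) := by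
  by_cases a : y2 0 / 192 ≠ x1 0 / 192 ∧ y2 0 / 192 ≠ x2 0 / 192
  · exact K22g hx1 hx2 hy1 hy2 a.1 a.2
  by_cases b : y1 0 / 192 ≠ x1 0 / 192 ∧ y1 0 / 192 ≠ x2 0 / 192
  · exact Good_congr (fun s => by ring) (K22g hx1 hx2 hy2 hy1 b.1 b.2)
  by_cases c : y1 0 / 192 = x1 0 / 192
  · by_cases d : y2 0 / 192 = x2 0 / 192
    · exact K22z hx1 hx2 hy1 hy2 c d
    · -- y2 = x1 = y1, x2 different
      have e : y2 0 / 192 = x1 0 / 192 := by
        by_contra hh; exact a ⟨hh, d⟩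
      exact Good_congr (fun s => by ring)
        (K22h hx2 hx1 hy1 hy2 (by rw [← e]; exact fun h => d h.symm) (by rw [c, ← e]; exact fun h => d h.symm)
          (fun h => d h.symm))
  · have c' : y1 0 / 192 = x2 0 / 192 := by
      by_contra hh; exact b ⟨c, hh⟩
    by_cases d : y2 0 / 192 = x1 0 / 192
    · exact Good_congr (fun s => by ring) (K22z hx1 hx2 hy2 hy1 d c')
    · -- y2 = x2 = y1, x1 different
      have e : y2 0 / 192 = x2 0 / 192 := by
        by_contra hh; exact a ⟨d, hh⟩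
      exact K22h hx1 hx2 hy1 hy2 (by rw [← c']; exact fun h => c h.symm) (fun h => c h.symm)
        (fun h => d h.symm)

/-- summand -/
noncomputable def a (k : Bool) (x : ℕ → ℕ) (s : ℕ) : ℕ := F x s + (if k then x s else 0)

lemma kill (k1 k2 k3 k4 : Bool) {x1 x2 x3 x4 : ℕ → ℕ} (h1 : ∀ s, x1 s < 576) (h2 : ∀ s, x2 s < 576)
    (h3 : ∀ s, x3 s < 576) (h4 : ∀ s, x4 s < 576) :
    Good (fun s => a k1 x1 s + a k2 x2 s + a k3 x3 s + a k4 x4 s) := by
  rcases k1 <;> rcases k2 <;> rcases k3 <;> rcases k4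
  · exact Good_congr (fun s => by simp [a]) (K40 h1 h2 h3 h4)
  · exact Good_congr (fun s => by simp [a]) (K31 h1 h2 h3 h4)
  · exact Good_congr (fun s => by simp [a]; try ring) (K31 h1 h2 h4 h3)
  · exact Good_congr (fun s => by simp [a]) (K22 h1 h2 h3 h4)
  · exact Good_congr (fun s => by simp [a]; try ring) (K31 h1 h3 h4 h2)
  · exact Good_congr (fun s => by simp [a]; try ring) (K22 h1 h3 h2 h4)
  · exact Good_congr (fun s => by simp [a]; try ring) (K22 h1 h4 h2 h3)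
  · exact Good_congr (fun s => by simp [a]) (K13 h1 h2 h3 h4)
  · exact Good_congr (fun s => by simp [a]; try ring) (K31 h2 h3 h4 h1)
  · exact Good_congr (fun s => by simp [a]; try ring) (K22 h2 h3 h1 h4)
  · exact Good_congr (fun s => by simp [a]; try ring) (K22 h2 h4 h1 h3)
  · exact Good_congr (fun s => by simp [a]; try ring) (K13 h2 h1 h3 h4)
  · exact Good_congr (fun s => by simp [a]; try ring) (K22 h3 h4 h1 h2)
  · exact Good_congr (fun s => by simp [a]; try ring) (K13 h3 h1 h2 h4)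
  · exact Good_congr (fun s => by simp [a]; try ring) (K13 h4 h1 h2 h3)
  · exact Good_congr (fun s => by simp [a]) (K04 h1 h2 h3 h4)

lemma carry (r : ℕ) : ∀ (E c : ℕ → ℕ) (κ : ℕ), κ ≤ 8 → (∀ s < r, E s ≤ 8 * 575) →
    (∀ s < r, c s < 576) →
    (∑ s ∈ Finset.range r, E s * 576 ^ s + κ) % 576 ^ r = ∑ s ∈ Finset.range r, c s * 576 ^ s →
    ∀ s < r, ∃ κ' ≤ 8, (E s + κ') % 576 = c s := by
  induction r with
  | zero => intro E c κ _ _ _ _ s hs; omega
  | succ r ih =>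
    intro E c κ hκ hE hc h s hs
    obtain ⟨S', hS'⟩ : ∃ S', S' = ∑ s ∈ Finset.range r, E (s + 1) * 576 ^ s := ⟨_, rfl⟩
    obtain ⟨C', hC'⟩ : ∃ C', C' = ∑ s ∈ Finset.range r, c (s + 1) * 576 ^ s := ⟨_, rfl⟩
    have e1 : ∑ s ∈ Finset.range (r + 1), E s * 576 ^ s = 576 * S' + E 0 := by
      rw [Finset.sum_range_succ', hS', Finset.mul_sum, pow_zero, mul_one]
      congr 1
      exact Finset.sum_congr rfl (fun s _ => by rw [pow_succ]; ring)
    have e2 : ∑ s ∈ Finset.range (r + 1), c s * 576 ^ s = 576 * C' + c 0 := by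
      rw [Finset.sum_range_succ', hC', Finset.mul_sum, pow_zero, mul_one]
      congr 1
      exact Finset.sum_congr rfl (fun s _ => by rw [pow_succ]; ring)
    rw [e1, e2, pow_succ'] at h
    have hE0 := hE 0 (by omega)
    have hc0 := hc 0 (by omega)
    have hm : (576 * S' + E 0 + κ) % 576 = c 0 := by
      have := congrArg (· % 576) h
      simp only [Nat.mod_mul_right_mod] at this
      omega
    have hd : (S' + (E 0 + κ) / 576) % 576 ^ r = C' := by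
      have := congrArg (· / 576) h
      simp only [Nat.mod_mul_right_div_self] at this
      have e3 : (576 * S' + E 0 + κ) / 576 = S' + (E 0 + κ) / 576 := by omega
      have e4 : (576 * C' + c 0) / 576 = C' := by omega
      rw [e3, e4] at this
      exact this
    rcases s with _ | s
    · exact ⟨κ, hκ, by omega⟩
    · exact ih (fun s => E (s + 1)) (fun s => c (s + 1)) ((E 0 + κ) / 576) (by omega)
        (fun s hs => hE (s + 1) (by omega)) (fun s hs => hc (s + 1) (by omega))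
        (by rw [← hS', ← hC']; exact hd) s (by omega)

/-- the base -/
def β : ℕ := 576 ^ 9

/-- digits of `X` -/
def dig (X s : ℕ) : ℕ := X / 576 ^ s % 576

lemma dig_lt (X s : ℕ) : dig X s < 576 := Nat.mod_lt _ (by norm_num)

lemma sum_dig (X r : ℕ) : ∑ s ∈ Finset.range r, dig X s * 576 ^ s = X % 576 ^ r := by
  induction r with
  | zero => simp [Nat.mod_one]
  | succ r ih =>
    rw [Finset.sum_range_succ, ih, dig, Nat.mod_pow_succ]
    ring

/-- the digit map -/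
noncomputable def v (i : Bool × Fin β) : ℕ := ∑ s ∈ Finset.range 9, a i.1 (dig i.2) s * 576 ^ s

lemma a_le (k : Bool) (x : ℕ → ℕ) (hx : ∀ s, x s < 576) (s : ℕ) : a k x s ≤ 2 * 575 := by
  have h1 := F_lt x s
  have h2 := hx s
  unfold a
  split_ifs <;> omega

lemma v_le (i : Bool × Fin β) : v i ≤ 2 * (β - 1) := by
  unfold v
  calc ∑ s ∈ Finset.range 9, a i.1 (dig i.2) s * 576 ^ s
      ≤ ∑ s ∈ Finset.range 9, (2 * 575) * 576 ^ s :=
        Finset.sum_le_sum (fun s _ => Nat.mul_le_mul_right _ (a_le _ _ (dig_lt _) _))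
    _ = 2 * (β - 1) := by
        unfold β
        norm_num [Finset.sum_range_succ]

lemma v_diff (X : Fin β) : v (true, X) = X + v (false, X) := by
  have h : ∑ s ∈ Finset.range 9, dig X s * 576 ^ s = (X : ℕ) := by
    rw [sum_dig, Nat.mod_eq_of_lt]
    exact X.2
  have e : v (true, X) = ∑ s ∈ Finset.range 9, dig X s * 576 ^ s + v (false, X) := by
    unfold v
    rw [← Finset.sum_add_distrib]
    refine Finset.sum_congr rfl (fun s _ => ?_)
    simp only [a]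
    simp
    ring
  rw [e, h]

/-- the missed digit -/
def C : ℕ := ∑ s ∈ Finset.range 9, cv s * 576 ^ s

lemma C_lt : C < β := by
  decide +kernel

lemma v_miss (p q r s : Bool × Fin β) (κ : ℕ) (hκ : κ ≤ 8) :
    (v p + v q + v r + v s + κ) % β ≠ C := by
  intro h
  obtain ⟨t, ht, hg⟩ := kill p.1 q.1 r.1 s.1 (dig_lt p.2) (dig_lt q.2) (dig_lt r.2) (dig_lt s.2)
  have hsum : v p + v q + v r + v s = ∑ t ∈ Finset.range 9,
      (a p.1 (dig p.2) t + a q.1 (dig q.2) t + a r.1 (dig r.2) t + a s.1 (dig s.2) t) * 576 ^ t := by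
    unfold v
    rw [← Finset.sum_add_distrib, ← Finset.sum_add_distrib, ← Finset.sum_add_distrib]
    exact Finset.sum_congr rfl (fun s _ => by ring)
  rw [hsum] at h
  obtain ⟨κ', hκ', h'⟩ := carry 9
    (fun t => a p.1 (dig p.2) t + a q.1 (dig q.2) t + a r.1 (dig r.2) t + a s.1 (dig s.2) t) cv κ hκ
    (fun t _ => by
      have h1 := a_le p.1 (dig p.2) (dig_lt _) t
      have h2 := a_le q.1 (dig q.2) (dig_lt _) t
      have h3 := a_le r.1 (dig r.2) (dig_lt _) t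
      have h4 := a_le s.1 (dig s.2) (dig_lt _) t
      omega)
    (fun t _ => cv_lt t) h t ht
  exact hg κ' hκ' h'

end Pool.Agent.U853.FourSumDigits
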