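import Mathlib

/-!
Real part of the construction: a finite digit set whose differences cover all digits and whose
fourfold sums (with carries) miss a digit yields a compact set of reals.
-/

set_option autoImplicit false
open scoped Pointwise

namespace Pool.Agent.U853.FourSumReal

variable {ι : Type}

/-- The real number with generalised digits `v (p n)` in base `β`. -/
noncomputable def Psi (β : ℕ) (v : ι → ℕ) (p : ℕ → ι) : ℝ :=
  ∑' n, (v (p n) : ℝ) * ((β : ℝ)⁻¹) ^ (n + 1)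

lemma summable_geo {β : ℕ} (hβ : 2 ≤ β) (C : ℝ) :
    Summable (fun n : ℕ => C * ((β : ℝ)⁻¹) ^ (n + 1)) := by
  have hb : (2 : ℝ) ≤ β := by exact_mod_cast hβ
  refine Summable.mul_left _ ?_
  have := summable_geometric_of_lt_one (r := (β : ℝ)⁻¹) (by positivity)
    (inv_lt_one_of_one_lt₀ (by linarith))
  exact (summable_nat_add_iff 1).2 this

lemma tsum_geo {β : ℕ} (hβ : 2 ≤ β) (C : ℝ) :
    ∑' n : ℕ, C * ((β : ℝ)⁻¹) ^ (n + 1) = C / ((β : ℝ) - 1) := by
  have hb : (2 : ℝ) ≤ β := by exact_mod_cast hβ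
  have h1 : (β : ℝ) - 1 ≠ 0 := by linarith
  have h2 : (β : ℝ) ≠ 0 := by linarith
  have h := tsum_geometric_of_lt_one (r := (β : ℝ)⁻¹) (by positivity)
    (inv_lt_one_of_one_lt₀ (by linarith))
  simp_rw [pow_succ']
  rw [tsum_mul_left, tsum_mul_left, h]
  have h3 : 1 - (β : ℝ)⁻¹ ≠ 0 := by
    have : (β : ℝ)⁻¹ < 1 := inv_lt_one_of_one_lt₀ (by linarith)
    linarith
  field_simp

section

variable {β : ℕ} (hβ : 2 ≤ β) {v : ι → ℕ} (hv : ∀ i, v i ≤ 2 * (β - 1))
include hβ hv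

lemma term_le (i : ι) : (v i : ℝ) ≤ 2 * ((β : ℝ) - 1) := by
  have h := hv i
  have h1 : ((β - 1 : ℕ) : ℝ) = (β : ℝ) - 1 := by
    rw [Nat.cast_sub (by omega)]; simp
  calc (v i : ℝ) ≤ ((2 * (β - 1) : ℕ) : ℝ) := by exact_mod_cast h
    _ = 2 * ((β : ℝ) - 1) := by rw [Nat.cast_mul, h1]; norm_num

lemma summable_term (p : ℕ → ι) :
    Summable (fun n : ℕ => (v (p n) : ℝ) * ((β : ℝ)⁻¹) ^ (n + 1)) := by
  refine Summable.of_nonneg_of_le (fun n => by positivity) (fun n => ?_)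
    (summable_geo hβ (2 * ((β : ℝ) - 1)))
  exact mul_le_mul_of_nonneg_right (term_le hβ hv _) (by positivity)

lemma Psi_nonneg (p : ℕ → ι) : 0 ≤ Psi β v p := by
  have := hβ
  have := hv
  exact tsum_nonneg (fun n => by positivity)

lemma Psi_le (p : ℕ → ι) : Psi β v p ≤ 2 := by
  have hb : (2 : ℝ) ≤ β := by exact_mod_cast hβ
  calc Psi β v p ≤ ∑' n : ℕ, (2 * ((β : ℝ) - 1)) * ((β : ℝ)⁻¹) ^ (n + 1) := by
        refine Summable.tsum_le_tsum (fun n => ?_) (summable_term hβ hv p) (summable_geo hβ _)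
        exact mul_le_mul_of_nonneg_right (term_le hβ hv _) (by positivity)
    _ = 2 := by
        rw [tsum_geo hβ]
        have : (β : ℝ) - 1 ≠ 0 := by linarith
        field_simp

lemma Psi_succ (p : ℕ → ι) :
    (β : ℝ) * Psi β v p = v (p 0) + Psi β v (fun n => p (n + 1)) := by
  have hb : (β : ℝ) ≠ 0 := by positivity
  unfold Psi
  rw [(summable_term hβ hv p).tsum_eq_zero_add, mul_add, ← tsum_mul_left]
  congr 1
  · simp only [zero_add, pow_one]; field_simp
  · congr 1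
    funext n
    rw [pow_succ' _ (n + 1)]
    field_simp

lemma Psi_shift (n : ℕ) : ∀ p : ℕ → ι, ∃ N : ℕ,
    (β : ℝ) ^ (n + 1) * Psi β v p = N + Psi β v (fun k => p (k + (n + 1))) ∧
      N % β = v (p n) % β := by
  induction n with
  | zero =>
    intro p
    refine ⟨v (p 0), ?_, rfl⟩
    rw [zero_add, pow_one]
    exact Psi_succ hβ hv p
  | succ n ih =>
    intro p
    obtain ⟨N, h1, h2⟩ := ih (fun k => p (k + 1))
    refine ⟨β ^ (n + 1) * v (p 0) + N, ?_, ?_⟩
    · rw [pow_succ, mul_assoc, Psi_succ hβ hv p, mul_add, h1]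
      push_cast
      rw [add_assoc]
      rfl
    · rw [pow_succ, mul_assoc, mul_comm, mul_assoc, Nat.mul_add_mod]
      exact h2

lemma continuous_Psi [TopologicalSpace ι] [DiscreteTopology ι] :
    Continuous (Psi β v : (ℕ → ι) → ℝ) := by
  unfold Psi
  refine continuous_tsum (u := fun n => (2 * ((β : ℝ) - 1)) * ((β : ℝ)⁻¹) ^ (n + 1)) ?_
    (summable_geo hβ _) ?_
  · intro n
    have : Continuous (fun i : ι => (v i : ℝ)) := continuous_of_discreteTopology
    exact (this.comp (continuous_apply n)).mul continuous_const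
  · intro n p
    rw [Real.norm_of_nonneg (by positivity)]
    exact mul_le_mul_of_nonneg_right (term_le hβ hv _) (by positivity)

end

/-- Real part. -/
theorem real_part {β : ℕ} (hβ : 2 ≤ β) (v : Bool × Fin β → ℕ)
    (hv : ∀ i, v i ≤ 2 * (β - 1)) (hd : ∀ X : Fin β, v (true, X) = X + v (false, X))
    (C : ℕ) (hCβ : C < β)
    (hC : ∀ p q r s : Bool × Fin β, ∀ κ ≤ 8, (v p + v q + v r + v s + κ) % β ≠ C) :
    ∃ A : Set ℝ, IsCompact A ∧ A - A ∈ nhds (0 : ℝ) ∧ interior (A + A + A + A) = ∅ := by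
  have hb : (2 : ℝ) ≤ β := by exact_mod_cast hβ
  have hb0 : (0 : ℝ) < β := by linarith
  refine ⟨Set.range (Psi β v), isCompact_range (continuous_Psi hβ hv), ?_, ?_⟩
  · have key : ∀ x ∈ Set.Icc (0 : ℝ) 1,
        ∃ p q : ℕ → Bool × Fin β, Psi β v p - Psi β v q = x := by
      intro x hx
      obtain ⟨a, -, ha⟩ := Real.ofDigits_SurjOn (b := β) (by omega) hx
      refine ⟨fun n => (true, a n), fun n => (false, a n), ?_⟩
      unfold Psi
      rw [← Summable.tsum_sub (summable_term hβ hv _) (summable_term hβ hv _), ← ha]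
      unfold Real.ofDigits Real.ofDigitsTerm
      congr 1
      funext n
      rw [hd, ← sub_mul]
      push_cast
      rw [inv_pow]
      ring
    have hsub : Set.Icc (-1 : ℝ) 1 ⊆ Set.range (Psi β v) - Set.range (Psi β v) := by
      intro x hx
      rcases le_total 0 x with h | h
      · obtain ⟨p, q, hpq⟩ := key x ⟨h, hx.2⟩
        exact Set.mem_sub.2 ⟨_, ⟨p, rfl⟩, _, ⟨q, rfl⟩, hpq⟩
      · obtain ⟨p, q, hpq⟩ := key (-x) ⟨by linarith, by linarith [hx.1]⟩
        exact Set.mem_sub.2 ⟨_, ⟨q, rfl⟩, _, ⟨p, rfl⟩, by linarith⟩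
    exact Filter.mem_of_superset (Icc_mem_nhds (by norm_num) (by norm_num)) hsub
  · -- no interior
    have nohit : ∀ S ∈ (Set.range (Psi β v) + Set.range (Psi β v) + Set.range (Psi β v) +
        Set.range (Psi β v)), ∀ n j : ℕ, (β : ℝ) ^ (n + 1) * S = j → j % β ≠ C := by
      intro S hS n j hj hjC
      obtain ⟨x, hx, d, ⟨p4, rfl⟩, rfl⟩ := Set.mem_add.1 hS
      obtain ⟨y, hy, c, ⟨p3, rfl⟩, rfl⟩ := Set.mem_add.1 hx
      obtain ⟨a, ⟨p1, rfl⟩, b, ⟨p2, rfl⟩, rfl⟩ := Set.mem_add.1 hy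
      obtain ⟨N1, h1, m1⟩ := Psi_shift hβ hv n p1
      obtain ⟨N2, h2, m2⟩ := Psi_shift hβ hv n p2
      obtain ⟨N3, h3, m3⟩ := Psi_shift hβ hv n p3
      obtain ⟨N4, h4, m4⟩ := Psi_shift hβ hv n p4
      have l1 := Psi_le hβ hv (fun k => p1 (k + (n + 1)))
      have l2 := Psi_le hβ hv (fun k => p2 (k + (n + 1)))
      have l3 := Psi_le hβ hv (fun k => p3 (k + (n + 1)))
      have l4 := Psi_le hβ hv (fun k => p4 (k + (n + 1)))
      have g1 := Psi_nonneg hβ hv (fun k => p1 (k + (n + 1)))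
      have g2 := Psi_nonneg hβ hv (fun k => p2 (k + (n + 1)))
      have g3 := Psi_nonneg hβ hv (fun k => p3 (k + (n + 1)))
      have g4 := Psi_nonneg hβ hv (fun k => p4 (k + (n + 1)))
      have e : (j : ℝ) = (N1 + N2 + N3 + N4 : ℕ) +
          (Psi β v (fun k => p1 (k + (n + 1))) + Psi β v (fun k => p2 (k + (n + 1))) +
           Psi β v (fun k => p3 (k + (n + 1))) + Psi β v (fun k => p4 (k + (n + 1)))) := by
        rw [← hj]
        push_cast
        linarith
      have hle : N1 + N2 + N3 + N4 ≤ j := by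
        have : ((N1 + N2 + N3 + N4 : ℕ) : ℝ) ≤ j := by linarith
        exact_mod_cast this
      have hle2 : j ≤ N1 + N2 + N3 + N4 + 8 := by
        have : (j : ℝ) ≤ ((N1 + N2 + N3 + N4 + 8 : ℕ) : ℝ) := by
          rw [e]; push_cast; linarith
        exact_mod_cast this
      obtain ⟨κ, hκ⟩ : ∃ κ, j = N1 + N2 + N3 + N4 + κ := ⟨j - (N1 + N2 + N3 + N4), by omega⟩
      refine hC (p1 n) (p2 n) (p3 n) (p4 n) κ (by omega) ?_
      rw [← hjC, hκ]
      have e1 : (v (p1 n) + v (p2 n) + v (p3 n) + v (p4 n) + κ) ≡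
          (N1 + N2 + N3 + N4 + κ) [MOD β] := by
        refine Nat.ModEq.add_right _ ?_
        refine Nat.ModEq.add ?_ m4.symm
        refine Nat.ModEq.add ?_ m3.symm
        exact Nat.ModEq.add m1.symm m2.symm
      exact e1
    by_contra hne
    obtain ⟨x, hx⟩ := Set.nonempty_iff_ne_empty.2 hne
    have hxS := interior_subset hx
    have hx0 : 0 ≤ x := by
      obtain ⟨y, hy, d, ⟨p4, rfl⟩, rfl⟩ := Set.mem_add.1 hxS
      obtain ⟨z, hz, c, ⟨p3, rfl⟩, rfl⟩ := Set.mem_add.1 hy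
      obtain ⟨a, ⟨p1, rfl⟩, b, ⟨p2, rfl⟩, rfl⟩ := Set.mem_add.1 hz
      have g1 := Psi_nonneg hβ hv p1
      have g2 := Psi_nonneg hβ hv p2
      have g3 := Psi_nonneg hβ hv p3
      have g4 := Psi_nonneg hβ hv p4
      linarith
    obtain ⟨ε, hε, hball⟩ := Metric.isOpen_iff.1 isOpen_interior x hx
    obtain ⟨n, hn⟩ := exists_pow_lt_of_lt_one hε
      (show ((β : ℝ)⁻¹) < 1 from inv_lt_one_of_one_lt₀ (by linarith))
    -- choose j
    set y := (β : ℝ) ^ (n + 1) * x with hy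
    have hy0 : 0 ≤ y := by positivity
    obtain ⟨K, hK⟩ : ∃ K : ℕ, K = ⌊y⌋₊ := ⟨_, rfl⟩
    have hK1 : (K : ℝ) ≤ y := by rw [hK]; exact Nat.floor_le hy0
    have hK2 : y < K + 1 := by rw [hK]; exact Nat.lt_floor_add_one y
    -- j in (K, K + β] with j % β = C
    obtain ⟨j, hj1, hj2, hj3⟩ : ∃ j : ℕ, K < j ∧ j ≤ K + β ∧ j % β = C := by
      have hd := Nat.div_add_mod K β
      have hm := Nat.mod_lt K (show 0 < β by omega)
      by_cases hc : K % β < C
      · refine ⟨β * (K / β) + C, by omega, by omega, ?_⟩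
        rw [Nat.mul_add_mod, Nat.mod_eq_of_lt hCβ]
      · refine ⟨β * (K / β + 1) + C, ?_, ?_, ?_⟩
        · rw [mul_add]; omega
        · rw [mul_add]; omega
        · rw [Nat.mul_add_mod, Nat.mod_eq_of_lt hCβ]
    have hj1' : y < j := by
      have : (K : ℝ) + 1 ≤ j := by exact_mod_cast hj1
      linarith
    have hj2' : (j : ℝ) ≤ y + β := by
      have : (j : ℝ) ≤ K + β := by exact_mod_cast hj2
      linarith
    have hpow : (0 : ℝ) < (β : ℝ) ^ (n + 1) := by positivity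
    have hmem : (j : ℝ) / (β : ℝ) ^ (n + 1) ∈ Metric.ball x ε := by
      rw [Metric.mem_ball, Real.dist_eq, abs_lt]
      have e1 : (j : ℝ) / (β : ℝ) ^ (n + 1) - x = (j - y) / (β : ℝ) ^ (n + 1) := by
        rw [hy]; field_simp
      rw [e1]
      constructor
      · have : 0 ≤ (j - y) / (β : ℝ) ^ (n + 1) := by
          apply div_nonneg <;> linarith
        linarith
      · calc (j - y) / (β : ℝ) ^ (n + 1) ≤ β / (β : ℝ) ^ (n + 1) := by
              apply div_le_div_of_nonneg_right _ hpow.le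
              linarith
          _ = ((β : ℝ)⁻¹) ^ n := by
              rw [pow_succ, inv_pow]; field_simp
          _ < ε := hn
    exact nohit _ (interior_subset (hball hmem)) n j (by field_simp) hj3

end Pool.Agent.U853.FourSumReal
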